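import Pool.Agent.H37.CV.Targets
import Pool.Agent.H81.RC.EP

/-!
# (AF2) The second approximate functional equation
-/

set_option autoImplicit false

open NumberField NumberField.InfinitePlace Complex Filter Topology MeasureTheory

namespace Pool.Agent.H33.CV

open Pool.Agent.H37.CV Pool.Agent.H28.RC Pool.Agent.H25.HK

theorem cpow_conj_real {x : ℝ} (hx : 0 ≤ x) (s : ℂ) :
    (starRingEnd ℂ) ((x : ℂ) ^ ((starRingEnd ℂ) s)) = (x : ℂ) ^ s := by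
  have h := Complex.cpow_conj (x : ℂ) s (by
    rw [Complex.arg_ofReal_of_nonneg hx]
    exact Real.pi_pos.ne)
  rw [h, Complex.conj_conj, Complex.conj_ofReal]

theorem Gc_conj (s : ℂ) : (starRingEnd ℂ) (Gammaℂ ((starRingEnd ℂ) s)) = Gammaℂ s := by
  have h2 : (2 * (Real.pi : ℂ)) = ((2 * Real.pi : ℝ) : ℂ) := by push_cast; rfl
  rw [Gammaℂ_def, Gammaℂ_def, map_mul, map_mul, Complex.Gamma_conj, Complex.conj_conj, h2,
    ← map_neg, cpow_conj_real (by positivity)]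
  congr 2
  exact Complex.conj_ofNat 2

theorem Gc_half_ne : Gammaℂ (1 / 2) ≠ 0 := by
  rw [Gammaℂ_def]
  refine mul_ne_zero (mul_ne_zero two_ne_zero ?_) ?_
  · rw [Ne, Complex.cpow_eq_zero_iff]
    rintro ⟨h, -⟩
    have : (2 * (Real.pi : ℂ)) ≠ 0 := mul_ne_zero two_ne_zero (by exact_mod_cast Real.pi_ne_zero)
    exact this h
  · exact Complex.Gamma_ne_zero_of_re_pos (by norm_num)

section
variable {K : Type} [Field K] [NumberField K]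

theorem ent_unique (χ : RCC K) {Z Z' : ℂ → ℂ} (h : IsEnt χ Z) (h' : IsEnt χ Z') : Z = Z' := by
  refine AnalyticOnNhd.eq_of_eventuallyEq (z₀ := 2) (fun z _ => h.1.analyticAt z)
    (fun z _ => h'.1.analyticAt z) ?_
  have : ∀ᶠ w : ℂ in nhds 2, 1 < w.re :=
    (isOpen_lt continuous_const Complex.continuous_re).mem_nhds (by norm_num)
  filter_upwards [this] with w hw
  rw [h.2 w hw, h'.2 w hw]

instance ni_countable : Countable (NI K) := by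
  have h1 : Countable (Ideal (𝓞 K)) := by
    have hc : (⋃ n : ℕ, {I : Ideal (𝓞 K) | Ideal.absNorm I = n}).Countable :=
      Set.countable_iUnion fun n => (Ideal.finite_setOfPred_absNorm_eq (S := 𝓞 K) n).countable
    have hu : (⋃ n : ℕ, {I : Ideal (𝓞 K) | Ideal.absNorm I = n}) = Set.univ :=
      Set.eq_univ_of_forall fun I => Set.mem_iUnion.2 ⟨Ideal.absNorm I, rfl⟩
    rw [hu] at hc
    exact Set.countable_univ_iff.1 hc
  infer_instance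

theorem nm_pos' (I : NI K) : 0 < nm I.1 := by
  have : Ideal.absNorm I.1 ≠ 0 := fun h => I.2 (Ideal.absNorm_eq_zero_iff.1 h)
  have := Nat.pos_of_ne_zero this
  unfold nm
  exact_mod_cast this

theorem cnd_pos' (m : Ideal (𝓞 K)) (hm : m ≠ ⊥) : 0 < cnd K m := by
  unfold cnd
  refine mul_pos (abs_pos.2 ?_) (nm_pos' ⟨m, hm⟩)
  exact_mod_cast NumberField.discr_ne_zero K

theorem nm_summable {s : ℝ} (hs : 1 < s) : Summable fun I : NI K => nm I.1 ^ (-s) := by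
  have hs' : 1 < ((s : ℝ) : ℂ).re := by simpa using hs
  have h := (Pool.Agent.H76.HK.fiber_sum K hs').1
  have h2 := h.comp_injective (Subtype.val_injective (p := fun I : Ideal (𝓞 K) => I ≠ ⊥))
  refine h2.congr fun I => ?_
  have e : (fun I => ‖Pool.Agent.H76.HK.nm K (s : ℂ) (by rintro h; rw [h] at hs'; norm_num at hs')
      I‖) I.1 = ‖((Ideal.absNorm I.1 : ℕ) : ℂ) ^ (-((s : ℝ) : ℂ))‖ := rfl
  change ‖((Ideal.absNorm I.1 : ℕ) : ℂ) ^ (-((s : ℝ) : ℂ))‖ = nm I.1 ^ (-s)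
  have h0 := nm_pos' I
  unfold nm at h0 ⊢
  rw [Complex.norm_natCast_cpow_of_pos (by exact_mod_cast h0)]
  simp

/-- the product of the two completed functions -/
noncomputable def HH (Λ : ℂ → ℂ) (s : ℂ) : ℂ :=
  Λ (1 / 2 + s) * (starRingEnd ℂ) (Λ (1 / 2 + (starRingEnd ℂ) s))

theorem HH_diff {Λ : ℂ → ℂ} (h : Differentiable ℂ Λ) : Differentiable ℂ (HH Λ) := by
  intro s
  unfold HH
  refine (h.comp (differentiable_const _ |>.add differentiable_id) s).mul ?_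
  have h1 : DifferentiableAt ℂ (fun w : ℂ => Λ (1 / 2 + w)) ((starRingEnd ℂ) s) :=
    h.comp (differentiable_const _ |>.add differentiable_id) _
  have h2 := h1.conj_conj
  rw [Complex.conj_conj] at h2
  exact h2

theorem HH_even {Λ : ℂ → ℂ} {ε : ℂ} (hε : ‖ε‖ = 1)
    (h : ∀ s : ℂ, Λ s = ε * (starRingEnd ℂ) (Λ (1 - (starRingEnd ℂ) s))) (s : ℂ) :
    HH Λ (-s) = HH Λ s := by
  unfold HH
  have h1 := h (1 / 2 + -s)
  have h2 := h (1 / 2 + (starRingEnd ℂ) (-s))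
  have e1 : 1 - (starRingEnd ℂ) (1 / 2 + -s) = 1 / 2 + (starRingEnd ℂ) s := by
    simp only [map_add, map_div₀, map_one, map_neg, Complex.conj_ofNat]
    ring
  have e2 : 1 - (starRingEnd ℂ) (1 / 2 + (starRingEnd ℂ) (-s)) = 1 / 2 + s := by
    simp only [map_add, map_div₀, map_one, map_neg, Complex.conj_conj, Complex.conj_ofNat]
    ring
  rw [e1] at h1
  rw [e2] at h2
  rw [h1, h2, map_mul, Complex.conj_conj]
  have h3 : ε * (starRingEnd ℂ) ε = 1 := by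
    rw [Complex.mul_conj, Complex.normSq_eq_norm_sq, hε]
    simp
  calc ε * (starRingEnd ℂ) (Λ (1 / 2 + (starRingEnd ℂ) s)) * ((starRingEnd ℂ) ε * Λ (1 / 2 + s))
      = (ε * (starRingEnd ℂ) ε) * (Λ (1 / 2 + s) *
        (starRingEnd ℂ) (Λ (1 / 2 + (starRingEnd ℂ) s))) := by ring
    _ = _ := by rw [h3, one_mul]

/-- the formula for the product -/
theorem HH_eq {Λ Z : ℂ → ℂ} {Q : ℝ} (hQ : 0 < Q) (r : ℕ)
    (h : ∀ s : ℂ, (∀ n : ℕ, s ≠ -(n : ℂ)) → Λ s = (Q : ℂ) ^ (s / 2) * Gammaℂ s ^ r * Z s)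
    (s : ℂ) (hs : 0 ≤ s.re) :
    HH Λ s = (Q : ℂ) ^ (1 / 2 + s) * Gammaℂ (1 / 2 + s) ^ (2 * r) *
      (Z (1 / 2 + s) * (starRingEnd ℂ) (Z (1 / 2 + (starRingEnd ℂ) s))) := by
  have hn : ∀ w : ℂ, 0 ≤ w.re → ∀ n : ℕ, (1 / 2 + w : ℂ) ≠ -(n : ℂ) := by
    intro w hw n hh
    have := congrArg Complex.re hh
    simp only [Complex.add_re, Complex.neg_re, Complex.natCast_re] at this
    have h1 : ((1 / 2 : ℂ)).re = 1 / 2 := by norm_num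
    rw [h1] at this
    have h2 : (0 : ℝ) ≤ n := Nat.cast_nonneg n
    linarith
  unfold HH
  rw [h _ (hn s hs), h _ (hn _ (by rw [Complex.conj_re]; exact hs)), map_mul, map_mul, map_pow]
  have e0 : (1 / 2 + (starRingEnd ℂ) s) = (starRingEnd ℂ) (1 / 2 + s) := by
    simp only [map_add, map_div₀, map_one, Complex.conj_ofNat]
  have e1 : (starRingEnd ℂ) ((Q : ℂ) ^ ((1 / 2 + (starRingEnd ℂ) s) / 2)) =
      (Q : ℂ) ^ ((1 / 2 + s) / 2) := by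
    have : (1 / 2 + (starRingEnd ℂ) s) / 2 = (starRingEnd ℂ) ((1 / 2 + s) / 2) := by
      simp only [map_add, map_div₀, map_one, Complex.conj_ofNat]
    rw [this, cpow_conj_real hQ.le]
  have e2 : (starRingEnd ℂ) (Gammaℂ (1 / 2 + (starRingEnd ℂ) s)) = Gammaℂ (1 / 2 + s) := by
    rw [e0, Gc_conj]
  have e3 : (Q : ℂ) ^ (1 / 2 + s) = (Q : ℂ) ^ ((1 / 2 + s) / 2) * (Q : ℂ) ^ ((1 / 2 + s) / 2) := by
    rw [← Complex.cpow_add _ _ (by exact_mod_cast hQ.ne')]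
    congr 1
    ring
  rw [e1, e2, e3, pow_mul]
  have e4 : (Gammaℂ (1 / 2 + s) ^ 2) ^ r = Gammaℂ (1 / 2 + s) ^ r * Gammaℂ (1 / 2 + s) ^ r := by
    rw [← pow_mul, ← pow_add]
    congr 1
    ring
  rw [e4]
  ring

/-- the terms of the double series -/
noncomputable def TT (χ : RCC K) (Q : ℝ) (r : ℕ) (p : NI K × NI K) (t : ℝ) : ℂ :=
  χ.ψ p.1.1 * (starRingEnd ℂ) (χ.ψ p.2.1) *
    (((nm p.1.1 * nm p.2.1) ^ (-(1 / 2) : ℝ) : ℝ) : ℂ) *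
      (gq r (2 + t * I) * (cexp ((2 + t * I) ^ 2) / (2 + t * I)) *
        ((nm p.1.1 * nm p.2.1 / Q : ℝ) : ℂ) ^ (-(2 + t * I)))

theorem natcpow_conj (n : ℕ) (s : ℂ) :
    (starRingEnd ℂ) ((n : ℂ) ^ (-(starRingEnd ℂ) s)) = (n : ℂ) ^ (-s) := by
  have h := cpow_conj_real (x := (n : ℝ)) (Nat.cast_nonneg n) (-s)
  rw [map_neg, Complex.ofReal_natCast] at h
  exact h

/-- the summands of the product -/
noncomputable def pp (χ : RCC K) (s : ℂ) (p : NI K × NI K) : ℂ :=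
  (χ.ψ p.1.1 * (Ideal.absNorm p.1.1 : ℂ) ^ (-s)) *
    ((starRingEnd ℂ) (χ.ψ p.2.1) * (Ideal.absNorm p.2.1 : ℂ) ^ (-s))

theorem Lc_prod (χ : RCC K) {s : ℂ} (hs : 1 < s.re) :
    Lc χ s * (starRingEnd ℂ) (Lc χ ((starRingEnd ℂ) s)) = ∑' p : NI K × NI K, pp χ s p := by
  have h1 : Summable fun I : NI K => ‖χ.ψ I.1 * (Ideal.absNorm I.1 : ℂ) ^ (-s)‖ :=
    (Pool.Agent.H81.RC.ep K χ).1 s hs
  have hs' : 1 < ((starRingEnd ℂ) s).re := by rwa [Complex.conj_re]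
  have h2 : Summable fun I : NI K =>
      ‖χ.ψ I.1 * (Ideal.absNorm I.1 : ℂ) ^ (-(starRingEnd ℂ) s)‖ :=
    (Pool.Agent.H81.RC.ep K χ).1 _ hs'
  have e : ∀ J : NI K, (starRingEnd ℂ) (χ.ψ J.1 * (Ideal.absNorm J.1 : ℂ) ^ (-(starRingEnd ℂ) s)) =
      (starRingEnd ℂ) (χ.ψ J.1) * (Ideal.absNorm J.1 : ℂ) ^ (-s) := by
    intro J
    rw [map_mul, natcpow_conj]
  have h3 : Summable fun J : NI K =>
      ‖(starRingEnd ℂ) (χ.ψ J.1) * (Ideal.absNorm J.1 : ℂ) ^ (-s)‖ := by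
    refine h2.congr fun J => ?_
    rw [← e J, RCLike.norm_conj]
  have h4 : (starRingEnd ℂ) (Lc χ ((starRingEnd ℂ) s)) =
      ∑' J : NI K, (starRingEnd ℂ) (χ.ψ J.1) * (Ideal.absNorm J.1 : ℂ) ^ (-s) := by
    unfold Lc
    rw [Complex.conj_tsum]
    exact tsum_congr e
  rw [h4]
  exact tsum_mul_tsum_of_summable_norm h1 h3

theorem pw_id {a b Q : ℝ} (ha : 0 < a) (hb : 0 < b) (hQ : 0 < Q) (s : ℂ) :
    (a : ℂ) ^ (-(1 / 2 + s)) * (b : ℂ) ^ (-(1 / 2 + s)) * (Q : ℂ) ^ s =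
      (((a * b) ^ (-(1 / 2) : ℝ) : ℝ) : ℂ) * ((a * b / Q : ℝ) : ℂ) ^ (-s) := by
  have hab : 0 < a * b := mul_pos ha hb
  have e1 : (a : ℂ) ^ (-(1 / 2 + s)) * (b : ℂ) ^ (-(1 / 2 + s)) =
      ((a * b : ℝ) : ℂ) ^ (-(1 / 2 + s)) := by
    rw [Complex.ofReal_mul, Complex.mul_cpow_ofReal_nonneg ha.le hb.le]
  have e2 : ((a * b : ℝ) : ℂ) ^ (-(1 / 2 + s)) =
      (((a * b) ^ (-(1 / 2) : ℝ) : ℝ) : ℂ) * ((a * b : ℝ) : ℂ) ^ (-s) := by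
    rw [Complex.ofReal_cpow hab.le, ← Complex.cpow_add _ _ (by exact_mod_cast hab.ne')]
    congr 1
    push_cast
    ring
  have e3 : ((a * b : ℝ) : ℂ) ^ (-s) = ((a * b / Q : ℝ) : ℂ) ^ (-s) * (Q : ℂ) ^ (-s) := by
    rw [← Complex.mul_cpow_ofReal_nonneg (by positivity) hQ.le, ← Complex.ofReal_mul,
      div_mul_cancel₀ _ hQ.ne']
  have e4 : (Q : ℂ) ^ (-s) * (Q : ℂ) ^ s = 1 := by
    rw [← Complex.cpow_add _ _ (by exact_mod_cast hQ.ne'), neg_add_cancel, Complex.cpow_zero]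
  rw [e1, e2, e3, mul_assoc, mul_assoc, e4, mul_one]

theorem TT_eq (χ : RCC K) {Q : ℝ} (hQ : 0 < Q) (r : ℕ) (p : NI K × NI K) (t : ℝ) :
    TT χ Q r p t = gq r (2 + t * I) * (cexp ((2 + t * I) ^ 2) / (2 + t * I)) *
      (pp χ (1 / 2 + (2 + t * I)) p * (Q : ℂ) ^ ((2 : ℂ) + t * I)) := by
  have h := pw_id (nm_pos' p.1) (nm_pos' p.2) hQ (2 + t * I)
  have e1 : ((nm p.1.1 : ℝ) : ℂ) = (Ideal.absNorm p.1.1 : ℂ) := by
    unfold nm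
    exact Complex.ofReal_natCast _
  have e2 : ((nm p.2.1 : ℝ) : ℂ) = (Ideal.absNorm p.2.1 : ℂ) := by
    unfold nm
    exact Complex.ofReal_natCast _
  rw [e1, e2] at h
  unfold TT pp
  calc χ.ψ p.1.1 * (starRingEnd ℂ) (χ.ψ p.2.1) *
        (((nm p.1.1 * nm p.2.1) ^ (-(1 / 2) : ℝ) : ℝ) : ℂ) *
        (gq r (2 + t * I) * (cexp ((2 + t * I) ^ 2) / (2 + t * I)) *
          ((nm p.1.1 * nm p.2.1 / Q : ℝ) : ℂ) ^ (-(2 + t * I)))
      = gq r (2 + t * I) * (cexp ((2 + t * I) ^ 2) / (2 + t * I)) *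
        (χ.ψ p.1.1 * (starRingEnd ℂ) (χ.ψ p.2.1) *
          ((((nm p.1.1 * nm p.2.1) ^ (-(1 / 2) : ℝ) : ℝ) : ℂ) *
          ((nm p.1.1 * nm p.2.1 / Q : ℝ) : ℂ) ^ (-(2 + t * I)))) := by ring
    _ = _ := by
        rw [← h]
        ring

/-- the product on the line `re = 2` -/
theorem HH_line (χ : RCC K) {Λ Z : ℂ → ℂ} (hZ : IsEnt χ Z) {Q : ℝ} (hQ : 0 < Q) (r : ℕ)
    (h : ∀ s : ℂ, (∀ n : ℕ, s ≠ -(n : ℂ)) → Λ s = (Q : ℂ) ^ (s / 2) * Gammaℂ s ^ r * Z s)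
    (t : ℝ) : HH Λ (2 + t * I) * (cexp ((2 + t * I) ^ 2) / (2 + t * I)) =
      (Q : ℂ) ^ (1 / 2 : ℂ) * Gammaℂ (1 / 2) ^ (2 * r) * ∑' p, TT χ Q r p t := by
  have hre : ((2 : ℂ) + t * I).re = 2 := by simp
  have hre2 : 1 < ((1 / 2 : ℂ) + (2 + t * I)).re := by
    rw [Complex.add_re, hre]
    norm_num
  have e0 : (1 / 2 + (starRingEnd ℂ) ((2 : ℂ) + t * I)) =
      (starRingEnd ℂ) (1 / 2 + (2 + t * I)) := by
    simp only [map_add, map_div₀, map_one, Complex.conj_ofNat]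
  have hre3 : 1 < ((starRingEnd ℂ) ((1 / 2 : ℂ) + (2 + t * I))).re := by
    rw [Complex.conj_re]
    exact hre2
  rw [HH_eq hQ r h _ (by rw [hre]; norm_num), e0, hZ.2 _ hre2, hZ.2 _ hre3, Lc_prod χ hre2]
  have e1 : ∀ p, TT χ Q r p t = (gq r (2 + t * I) * (cexp ((2 + t * I) ^ 2) / (2 + t * I)) *
      (Q : ℂ) ^ ((2 : ℂ) + t * I)) * pp χ (1 / 2 + (2 + t * I)) p := by
    intro p
    rw [TT_eq χ hQ]
    ring
  rw [tsum_congr e1, tsum_mul_left]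
  have e2 : (Q : ℂ) ^ ((1 / 2 : ℂ) + (2 + t * I)) =
      (Q : ℂ) ^ (1 / 2 : ℂ) * (Q : ℂ) ^ ((2 : ℂ) + t * I) :=
    Complex.cpow_add _ _ (by exact_mod_cast hQ.ne')
  have e3 : Gammaℂ (1 / 2 + (2 + t * I)) ^ (2 * r) =
      Gammaℂ (1 / 2) ^ (2 * r) * gq r (2 + t * I) := by
    unfold gq
    rw [div_pow, mul_div_cancel₀ _ (pow_ne_zero _ Gc_half_ne)]
  rw [e2, e3]
  ring

theorem pw_real {a b Q : ℝ} (ha : 0 < a) (hb : 0 < b) (hQ : 0 < Q) :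
    (a * b) ^ (-(1 / 2) : ℝ) * (a * b / Q) ^ (-(2 : ℝ)) =
      Q ^ (2 : ℝ) * (a ^ (-(5 / 2) : ℝ) * b ^ (-(5 / 2) : ℝ)) := by
  have hab : 0 < a * b := mul_pos ha hb
  rw [Real.div_rpow hab.le hQ.le, ← Real.mul_rpow ha.le hb.le, Real.rpow_neg hQ.le 2, div_inv_eq_mul,
    ← mul_assoc, ← Real.rpow_add hab, mul_comm]
  norm_num

/-- interchange -/
theorem TT_sum (hSH : T_SH) (hGB : T_GB) (χ : RCC K) {Q : ℝ} (hQ : 0 < Q) (r : ℕ) :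
    HasSum (fun p : NI K × NI K => ∫ t : ℝ, TT χ Q r p t) (∫ t : ℝ, ∑' p, TT χ Q r p t) := by
  obtain ⟨-, C, A, hb⟩ := hGB.1 r 2
  obtain ⟨-, h1, -⟩ := hSH (gq r) (-(1 / 4)) 2 (by norm_num) (fun s h1 h2 => (hb s h1 h2).1)
    ⟨C, A, fun s h1 h2 => (hb s h1 h2).2⟩
  obtain ⟨hint, -, -⟩ := h1 (by norm_num) (by norm_num)
  have e2 : ((2 : ℝ) : ℂ) = 2 := by norm_num
  rw [e2] at hint
  obtain ⟨G, hG⟩ : ∃ G : ℝ → ℂ, G = fun t : ℝ =>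
    gq r (2 + t * I) * (cexp ((2 + t * I) ^ 2) / (2 + t * I)) := ⟨_, rfl⟩
  rw [← hG] at hint
  have hT : ∀ (p : NI K × NI K) (t : ℝ), TT χ Q r p t = (χ.ψ p.1.1 * (starRingEnd ℂ) (χ.ψ p.2.1) *
      (((nm p.1.1 * nm p.2.1) ^ (-(1 / 2) : ℝ) : ℝ) : ℂ)) *
      (G t * ((nm p.1.1 * nm p.2.1 / Q : ℝ) : ℂ) ^ (-((2 : ℂ) + t * I))) := by
    intro p t
    rw [hG]
    rfl
  have hx : ∀ p : NI K × NI K, 0 < nm p.1.1 * nm p.2.1 / Q := fun p =>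
    div_pos (mul_pos (nm_pos' p.1) (nm_pos' p.2)) hQ
  have hnx : ∀ (p : NI K × NI K) (t : ℝ),
      ‖((nm p.1.1 * nm p.2.1 / Q : ℝ) : ℂ) ^ (-((2 : ℂ) + t * I))‖ =
        (nm p.1.1 * nm p.2.1 / Q) ^ (-(2 : ℝ)) := by
    intro p t
    rw [Complex.norm_cpow_eq_rpow_re_of_pos (hx p)]
    congr 1
    simp
  have hi : ∀ p : NI K × NI K, Integrable (fun t : ℝ =>
      G t * ((nm p.1.1 * nm p.2.1 / Q : ℝ) : ℂ) ^ (-((2 : ℂ) + t * I))) := by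
    intro p
    refine hint.mul_bdd (c := (nm p.1.1 * nm p.2.1 / Q) ^ (-(2 : ℝ))) ?_
      (Eventually.of_forall fun t => (hnx p t).le)
    refine Continuous.aestronglyMeasurable ?_
    refine Continuous.const_cpow (by fun_prop) (Or.inl ?_)
    exact_mod_cast (hx p).ne'
  have hψ : ∀ I : NI K, ‖χ.ψ I.1‖ ≤ 1 := fun I => Pool.Agent.H28.RC.rcc_norm_le χ I.1
  have hsm : Summable fun I : NI K => nm I.1 ^ (-(5 / 2) : ℝ) :=
    nm_summable (s := 5 / 2) (by norm_num)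
  have hsm2 : Summable fun p : NI K × NI K => nm p.1.1 ^ (-(5 / 2) : ℝ) * nm p.2.1 ^ (-(5 / 2) : ℝ) :=
    hsm.mul_of_nonneg hsm (fun I => Real.rpow_nonneg (nm_pos' I).le _)
      (fun I => Real.rpow_nonneg (nm_pos' I).le _)
  refine hasSum_integral_of_summable_integral_norm (fun p => ?_) ?_
  · have : TT χ Q r p = fun t => (χ.ψ p.1.1 * (starRingEnd ℂ) (χ.ψ p.2.1) *
      (((nm p.1.1 * nm p.2.1) ^ (-(1 / 2) : ℝ) : ℝ) : ℂ)) *
      (G t * ((nm p.1.1 * nm p.2.1 / Q : ℝ) : ℂ) ^ (-((2 : ℂ) + t * I))) := funext (hT p)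
    rw [this]
    exact (hi p).const_mul _
  · refine Summable.of_nonneg_of_le (fun p => integral_nonneg fun t => norm_nonneg _)
      (fun p => ?_) (hsm2.mul_left ((Q ^ (2 : ℝ)) * ∫ t, ‖G t‖))
    have hab : 0 < nm p.1.1 * nm p.2.1 := mul_pos (nm_pos' p.1) (nm_pos' p.2)
    have e3 : ∀ t, ‖TT χ Q r p t‖ ≤
        Q ^ (2 : ℝ) * (nm p.1.1 ^ (-(5 / 2) : ℝ) * nm p.2.1 ^ (-(5 / 2) : ℝ)) * ‖G t‖ := by
      intro t
      rw [hT, norm_mul, norm_mul, norm_mul, norm_mul, hnx, RCLike.norm_conj, Complex.norm_real,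
        Real.norm_of_nonneg (Real.rpow_nonneg hab.le _)]
      have e4 := pw_real (nm_pos' p.1) (nm_pos' p.2) hQ
      have e5 : ‖χ.ψ p.1.1‖ * ‖χ.ψ p.2.1‖ ≤ 1 :=
        mul_le_one₀ (hψ _) (norm_nonneg _) (hψ _)
      calc ‖χ.ψ p.1.1‖ * ‖χ.ψ p.2.1‖ * (nm p.1.1 * nm p.2.1) ^ (-(1 / 2) : ℝ) *
            (‖G t‖ * (nm p.1.1 * nm p.2.1 / Q) ^ (-(2 : ℝ)))
          = ‖χ.ψ p.1.1‖ * ‖χ.ψ p.2.1‖ * (((nm p.1.1 * nm p.2.1) ^ (-(1 / 2) : ℝ) *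
            (nm p.1.1 * nm p.2.1 / Q) ^ (-(2 : ℝ))) * ‖G t‖) := by ring
        _ ≤ 1 * (((nm p.1.1 * nm p.2.1) ^ (-(1 / 2) : ℝ) *
            (nm p.1.1 * nm p.2.1 / Q) ^ (-(2 : ℝ))) * ‖G t‖) :=
            mul_le_mul_of_nonneg_right e5 (by have := hx p; positivity)
        _ = _ := by rw [one_mul, e4]
    calc ∫ t, ‖TT χ Q r p t‖ ≤ ∫ t, Q ^ (2 : ℝ) *
          (nm p.1.1 ^ (-(5 / 2) : ℝ) * nm p.2.1 ^ (-(5 / 2) : ℝ)) * ‖G t‖ :=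
          integral_mono_of_nonneg (Eventually.of_forall fun t => norm_nonneg _)
            (hint.norm.const_mul _) (Eventually.of_forall e3)
      _ = _ := by
          rw [integral_const_mul]
          ring

/-- the sum of the integrals -/
theorem TT_A2 (hSH : T_SH) (hGB : T_GB) (χ : RCC K) {Q : ℝ} (hQ : 0 < Q) :
    ∫ t : ℝ, ∑' p, TT χ Q (nrComplexPlaces K) p t = 2 * Real.pi * A2 Q χ.ψ := by
  rw [← (TT_sum hSH hGB χ hQ (nrComplexPlaces K)).tsum_eq]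
  unfold A2
  rw [← tsum_mul_left]
  refine tsum_congr fun p => ?_
  unfold Vf TT
  rw [integral_const_mul]
  have hπ : (Real.pi : ℂ) ≠ 0 := by exact_mod_cast Real.pi_ne_zero
  have hc : 2 * (Real.pi : ℂ) * ((1 / (2 * Real.pi) : ℝ) : ℂ) = 1 := by
    push_cast
    field_simp
  generalize (∫ a : ℝ, gq (nrComplexPlaces K) (2 + a * I) *
    (cexp ((2 + a * I) ^ 2) / (2 + a * I)) *
      ((nm p.1.1 * nm p.2.1 / Q : ℝ) : ℂ) ^ (-((2 : ℂ) + a * I))) = J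
  linear_combination (-(χ.ψ p.1.1 * (starRingEnd ℂ) (χ.ψ p.2.1) *
    (((nm p.1.1 * nm p.2.1) ^ (-(1 / 2) : ℝ) : ℝ) : ℂ) * J)) * hc

end

/-- target AF2 of the board -/
theorem pf_AF2 (hSH : T_SH) (hGB : T_GB) (hEN : T_EN) : T_AF2 := by
  intro K _ _ _ χ hf Z hZ
  obtain ⟨Z', Λ, ε, hZ', hΛ, hΛe, hε, hfe, hbd⟩ := hEN K χ hf
  obtain rfl := ent_unique χ hZ hZ'
  have hQ : 0 < cnd K χ.f := cnd_pos' χ.f χ.f_ne
  obtain ⟨C, hC⟩ := hbd 3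
  have hH := HH_diff hΛ
  have hbH : ∀ s : ℂ, |s.re| ≤ 2 → ‖HH Λ s‖ ≤ C * C := by
    intro s hs
    have h1 : ((1 / 2 : ℂ)).re = 1 / 2 := by norm_num
    have h2 : |(1 / 2 + s).re| ≤ 3 := by
      rw [Complex.add_re, h1]
      rw [abs_le] at hs ⊢
      constructor <;> linarith [hs.1, hs.2]
    have h3 : |(1 / 2 + (starRingEnd ℂ) s).re| ≤ 3 := by
      rw [Complex.add_re, h1, Complex.conj_re]
      rw [abs_le] at hs ⊢
      constructor <;> linarith [hs.1, hs.2]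
    unfold HH
    rw [norm_mul, RCLike.norm_conj]
    have h4 := hC _ h2
    exact mul_le_mul h4 (hC _ h3) (norm_nonneg _) ((norm_nonneg _).trans h4)
  obtain ⟨-, h1, -⟩ := hSH (HH Λ) (-2) 2 (by norm_num) (fun s _ _ => hH s)
    ⟨C * C, 0, fun s h1 h2 => by
      rw [Real.rpow_zero, mul_one]
      exact hbH s (abs_le.2 ⟨h1, h2⟩)⟩
  obtain ⟨-, -, h2⟩ := h1 (by norm_num) (by norm_num)
  have e2 : ((2 : ℝ) : ℂ) = 2 := by norm_num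
  have e2' : ((-2 : ℝ) : ℂ) = -2 := by norm_num
  rw [e2, e2'] at h2
  have hneg : (∫ t : ℝ, HH Λ (-2 + t * I) * (cexp ((-2 + t * I) ^ 2) / (-2 + t * I))) =
      -∫ t : ℝ, HH Λ (2 + t * I) * (cexp ((2 + t * I) ^ 2) / (2 + t * I)) := by
    rw [← integral_neg, ← integral_neg_eq_self
      (fun t : ℝ => HH Λ (-2 + t * I) * (cexp ((-2 + t * I) ^ 2) / (-2 + t * I))) volume]
    refine integral_congr_ae (Eventually.of_forall fun t => ?_)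
    beta_reduce
    have e3 : (-2 : ℂ) + ((-t : ℝ) : ℂ) * I = -(2 + t * I) := by
      push_cast
      ring
    rw [e3, HH_even hε hfe, neg_sq, div_neg, mul_neg]
  rw [hneg] at h2
  have h3 : (∫ t : ℝ, HH Λ (2 + t * I) * (cexp ((2 + t * I) ^ 2) / (2 + t * I))) =
      Real.pi * HH Λ 0 := by
    have : (2 : ℂ) * (∫ t : ℝ, HH Λ (2 + t * I) * (cexp ((2 + t * I) ^ 2) / (2 + t * I))) =
        2 * (Real.pi * HH Λ 0) := by
      rw [← mul_assoc, ← h2]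
      ring
    exact mul_left_cancel₀ two_ne_zero this
  have h4 : (∫ t : ℝ, HH Λ (2 + t * I) * (cexp ((2 + t * I) ^ 2) / (2 + t * I))) =
      ((cnd K χ.f : ℝ) : ℂ) ^ (1 / 2 : ℂ) * Gammaℂ (1 / 2) ^ (2 * nrComplexPlaces K) *
        (2 * Real.pi * A2 (cnd K χ.f) χ.ψ) := by
    rw [← TT_A2 hSH hGB χ hQ, ← integral_const_mul]
    exact integral_congr_ae (Eventually.of_forall fun t => HH_line χ hZ hQ _ hΛe t)
  have h5 := HH_eq hQ (nrComplexPlaces K) hΛe 0 (by simp)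
  rw [map_zero, add_zero] at h5
  rw [h4, h5] at h3
  have hc : ((cnd K χ.f : ℝ) : ℂ) ^ (1 / 2 : ℂ) * Gammaℂ (1 / 2) ^ (2 * nrComplexPlaces K) ≠ 0 := by
    refine mul_ne_zero ?_ (pow_ne_zero _ Gc_half_ne)
    rw [Ne, Complex.cpow_eq_zero_iff]
    rintro ⟨h, -⟩
    exact hQ.ne' (by exact_mod_cast h)
  have hπ : (Real.pi : ℂ) ≠ 0 := by exact_mod_cast Real.pi_ne_zero
  have h6 : Z (1 / 2) * (starRingEnd ℂ) (Z (1 / 2)) = ((‖Z (1 / 2)‖ ^ 2 : ℝ) : ℂ) := by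
    rw [Complex.mul_conj, Complex.normSq_eq_norm_sq]
  rw [h6] at h3
  have h7 : (((cnd K χ.f : ℝ) : ℂ) ^ (1 / 2 : ℂ) * Gammaℂ (1 / 2) ^ (2 * nrComplexPlaces K) *
      Real.pi) * ((‖Z (1 / 2)‖ ^ 2 : ℝ) : ℂ) =
      (((cnd K χ.f : ℝ) : ℂ) ^ (1 / 2 : ℂ) * Gammaℂ (1 / 2) ^ (2 * nrComplexPlaces K) *
      Real.pi) * (2 * A2 (cnd K χ.f) χ.ψ) := by
    rw [mul_assoc, mul_comm (Real.pi : ℂ)]
    calc _ = Real.pi * (((cnd K χ.f : ℝ) : ℂ) ^ (1 / 2 : ℂ) *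
          Gammaℂ (1 / 2) ^ (2 * nrComplexPlaces K) * ((‖Z (1 / 2)‖ ^ 2 : ℝ) : ℂ)) := by ring
      _ = _ := by rw [← h3]; ring
  exact mul_left_cancel₀ (mul_ne_zero hc hπ) h7

end Pool.Agent.H33.CV
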